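import Pool.Agent.Helper46.NU.Names

/-!
MP_1fe1ca_lc, packet FN2 : names of finite sets of natural numbers, second part.
-/

set_option autoImplicit false

noncomputable section

namespace NU.PkFN2

open Pool.Agent.Helper97.Ku

section Bo

variable {L : Type} [CompleteBooleanAlgebra L]

theorem bo_inf (P Q : Prop) : (bo P : L) ⊓ bo Q = bo (P ∧ Q) := by
  by_cases hP : P <;> by_cases hQ : Q <;> simp [bo, hP, hQ]

theorem bo_himp (P Q : Prop) : ((bo P : L) ⇨ bo Q) = bo (P → Q) := by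
  by_cases hP : P <;> by_cases hQ : Q <;> simp [bo, hP, hQ]

theorem bo_compl (P : Prop) : (bo P : L)ᶜ = bo (¬ P) := by
  by_cases hP : P <;> simp [bo, hP]

theorem bo_iInf {ι : Sort*} (P : ι → Prop) : (⨅ i, (bo (P i) : L)) = bo (∀ i, P i) := by
  by_cases h : ∀ i, P i
  · rw [bo_true h]
    rw [eq_top_iff]
    exact le_iInf fun i => by rw [bo_true (h i)]
  · rw [bo_false h]
    have h' : ∃ i, ¬ P i := by
      by_contra h1
      exact h fun i => by
        by_contra h2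
        exact h1 ⟨i, h2⟩
    obtain ⟨i, hi⟩ := h'
    rw [eq_bot_iff]
    refine le_trans (iInf_le _ i) ?_
    rw [bo_false hi]

theorem bo_iffV (P Q : Prop) : iffV (bo P : L) (bo Q) = bo (P ↔ Q) := by
  unfold iffV
  rw [bo_himp, bo_himp, bo_inf]
  have h : ((P → Q) ∧ (Q → P)) = (P ↔ Q) := by
    apply propext
    exact ⟨fun h => ⟨h.1, h.2⟩, fun h => ⟨h.1, h.2⟩⟩
  rw [h]

theorem bo_eq {P Q : Prop} (h : P ↔ Q) : (bo P : L) = bo Q := by
  rw [propext h]

/-- bounded quantifiers over the name of a finite set -/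
theorem iInf_fs (t : Finset ℕ) (φ : BSet L → L) (h : BSet.Ext φ) :
    (⨅ y : BSet L, (y.mem (fsN t) ⇨ φ y)) = ⨅ a : {m // m ∈ t}, φ (nn a.1) := by
  rw [BSet.iInf_mem (fsN t) φ h]
  change (⨅ a : {m // m ∈ t}, ((⊤ : L) ⇨ φ (nn a.1))) = _
  simp only [top_himp]

theorem nn_eq (n : ℕ) : (nn n : BSet L) = BSet.mk (Fin n) (fun i => nn i.1) (fun _ => ⊤) := by
  rw [nn]

/-- bounded quantifiers over the name of a natural number -/
theorem iInf_nn (n : ℕ) (φ : BSet L → L) (h : BSet.Ext φ) :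
    (⨅ y : BSet L, (y.mem (nn n) ⇨ φ y)) = ⨅ i : Fin n, φ (nn i.1) := by
  rw [nn_eq n, BSet.iInf_mem _ φ h]
  change (⨅ a : Fin n, ((⊤ : L) ⇨ φ (nn a.1))) = _
  simp only [top_himp]

theorem mem_succ (nat : G_NAT) (n : ℕ) (m : BSet L) :
    m.mem (nn n) ⊔ m.eq (nn n) = m.mem (nn (n + 1)) := by
  have h1 := (nat L).1
  rw [h1 n m, h1 (n + 1) m]
  apply le_antisymm
  · refine sup_le (iSup_le fun i => ?_) ?_
    · exact le_iSup (fun j : Fin (n + 1) => m.eq (nn j.1)) ⟨i.1, by omega⟩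
    · exact le_iSup (fun j : Fin (n + 1) => m.eq (nn j.1)) ⟨n, by omega⟩
  · refine iSup_le fun j => ?_
    by_cases hj : j.1 < n
    · exact le_trans (le_iSup (fun i : Fin n => m.eq (nn i.1)) ⟨j.1, hj⟩) le_sup_left
    · have h2 : j.1 = n := by omega
      rw [h2]
      exact le_sup_right

theorem lstV_eq (nat : G_NAT) (n : ℕ) (x : BSet L) :
    lstV x (nn n) = (nn n).mem x ⊓ subV x (nn (n + 1)) := by
  unfold lstV subV
  have h : ∀ m : BSet L, (m.mem x ⇨ (m.mem (nn n) ⊔ m.eq (nn n))) =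
      (m.mem x ⇨ m.mem (nn (n + 1))) := fun m => by rw [mem_succ nat]
  rw [iInf_congr h]

theorem subV_fs (nat : G_NAT) (t : Finset ℕ) (n : ℕ) :
    subV (fsN t : BSet L) (nn n) = bo (∀ m ∈ t, m < n) := by
  unfold subV
  rw [iInf_fs t (fun m => m.mem (nn n)) (BSet.Ext.mem_left (nn n))]
  have h : ∀ a : {m // m ∈ t}, (nn a.1 : BSet L).mem (nn n) = bo (a.1 < n) :=
    fun a => (nat L).2.2.2 a.1 n
  rw [iInf_congr h, bo_iInf]
  exact bo_eq ⟨fun h m hm => h ⟨m, hm⟩, fun h a => h a.1 a.2⟩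

end Bo

theorem fn2 (nat : G_NAT) (fn1 : G_FN1) : G_FN2 := by
  intro L _
  refine ⟨?_, ?_, ?_, ?_, ?_⟩
  · intro n x
    rw [lstV_eq nat]
    refine le_trans (inf_le_inf_left _ ((fn1 L).2.2.2 (n + 1) x)) ?_
    rw [inf_iSup_eq]
    refine iSup_le fun t => ?_
    rw [inf_iSup_eq]
    refine iSup_le fun ht => ?_
    by_cases hl : LastN t n
    · exact le_trans inf_le_right (le_iSup₂ (f := fun (t : Finset ℕ) (_ : LastN t n) =>
        x.eq (fsN t)) t hl)
    · have hn : n ∉ t := by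
        intro hn
        apply hl
        refine ⟨hn, fun m hm => ?_⟩
        have := Finset.mem_range.1 (ht hm)
        omega
      rw [inf_comm]
      refine le_trans (BSet.mem_congr_right x (fsN t) (nn n)) ?_
      rw [(fn1 L).1 n t, bo_false hn]
      exact bot_le
  · intro t n
    rw [lstV_eq nat, (fn1 L).1 n t, subV_fs nat, bo_inf]
    apply bo_eq
    constructor
    · rintro ⟨h1, h2⟩
      exact ⟨h1, fun m hm => Nat.lt_succ_iff.1 (h2 m hm)⟩
    · rintro ⟨h1, h2⟩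
      exact ⟨h1, fun m hm => Nat.lt_succ_iff.2 (h2 m hm)⟩
  · intro t k n
    rw [subV_fs nat, iInf_fs t (fun m => (m.mem (nn k))ᶜ) (BSet.Ext.compl (BSet.Ext.mem_left _))]
    have h : ∀ a : {m // m ∈ t}, ((nn a.1 : BSet L).mem (nn k))ᶜ = bo (¬ a.1 < k) := by
      intro a
      rw [(nat L).2.2.2 a.1 k, bo_compl]
    rw [iInf_congr h, bo_iInf, bo_inf]
    apply bo_eq
    constructor
    · rintro ⟨h1, h2⟩ m hm
      rw [Finset.mem_Ico]
      exact ⟨not_lt.1 (h2 ⟨m, hm⟩), h1 m hm⟩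
    · intro h1
      exact ⟨fun m hm => (Finset.mem_Ico.1 (h1 hm)).2,
        fun a => not_lt.2 (Finset.mem_Ico.1 (h1 a.2)).1⟩
  · intro n t t'
    unfold agbV
    have hE : BSet.Ext (fun m : BSet L => iffV (m.mem (fsN t)) (m.mem (fsN t'))) := by
      unfold iffV
      exact ((BSet.Ext.mem_left _).himp (BSet.Ext.mem_left _)).inf
        ((BSet.Ext.mem_left _).himp (BSet.Ext.mem_left _))
    rw [iInf_nn n _ hE]
    have h : ∀ i : Fin n, iffV ((nn i.1 : BSet L).mem (fsN t)) ((nn i.1 : BSet L).mem (fsN t')) =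
        bo (i.1 ∈ t ↔ i.1 ∈ t') := by
      intro i
      rw [(fn1 L).1, (fn1 L).1, bo_iffV]
    rw [iInf_congr h, bo_iInf]
    exact bo_eq ⟨fun h m hm => h ⟨m, hm⟩, fun h i => h i.1 i.2⟩
  · intro n n'
    unfold sucV
    have h : ∀ m : BSet L, iffV (m.mem (nn n')) (m.mem (nn n) ⊔ m.eq (nn n)) =
        ((m.mem (nn n') ⇨ m.mem (nn (n + 1))) ⊓ (m.mem (nn (n + 1)) ⇨ m.mem (nn n'))) := by
      intro m
      rw [mem_succ nat]
      rfl
    rw [iInf_congr h, ← BSet.eq_iff_ext, (nat L).2.2.1]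

end NU.PkFN2

end
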