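import Pool.Agent.Helper46.NU.Goals1

set_option autoImplicit false

open MeasureTheory Filter Topology Set
open scoped ENNReal

noncomputable section

namespace NU.PkLB1

/-- the `N`-th term -/
def ff (A : Set (ℕ → Bool)) (a : ℕ → Bool) (N : ℕ) : ℝ≥0∞ :=
  coin {x | (fun n => if n < N then x n else a n) ∈ A}

theorem bern_singleton (b : Bool) : bern {b} = 1 / 2 := by
  cases b <;> simp [bern]

theorem coin_cyl (l : ℕ) (y : ℕ → Bool) : coin {x | ∀ m < l, x m = y m} = (1 / 2) ^ l := by
  have e : {x : ℕ → Bool | ∀ m < l, x m = y m} =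
      Set.pi (Finset.range l : Set ℕ) (fun m => ({y m} : Set Bool)) := by
    ext x
    simp [Set.mem_pi]
  rw [e, coin, Measure.infinitePi_pi _ (fun i _ => MeasurableSet.singleton _)]
  simp only [bern_singleton, Finset.prod_const, Finset.card_range]

theorem meas_st (a : ℕ → Bool) :
    Measurable fun s : ℕ × (ℕ → Bool) => (fun n => if n < s.1 then s.2 n else a n) := by
  refine measurable_pi_iff.mpr fun n => ?_
  exact Measurable.ite (measurableSet_lt measurable_const measurable_fst)
    ((measurable_pi_apply n).comp measurable_snd) measurable_const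

theorem rho_eq (A : Set (ℕ → Bool)) (hA : MeasurableSet A) (a : ℕ → Bool) :
    rho {s | (fun n => if n < s.1 then s.2 n else a n) ∈ A} =
      ∑' N : ℕ, (1 / 2 : ℝ≥0∞) ^ (N + 1) * ff A a N := by
  have hT : MeasurableSet {s : ℕ × (ℕ → Bool) | (fun n => if n < s.1 then s.2 n else a n) ∈ A} :=
    (meas_st a) hA
  rw [rho, Measure.prod_apply hT, geo, lintegral_sum_measure]
  refine tsum_congr fun N => ?_
  rw [lintegral_smul_measure, lintegral_dirac, smul_eq_mul]
  rfl

theorem lb1 : G_LB1 := by
  intro l a a' haa A hA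
  rw [rho_eq A hA a, rho_eq A hA a']
  have h1 : ∀ N, l ≤ N → ff A a' N = ff A a N := by
    intro N hN
    unfold ff
    congr 1
    ext x
    have : (fun n => if n < N then x n else a' n) = (fun n => if n < N then x n else a n) := by
      funext n
      split_ifs with h
      · rfl
      · exact (haa n (by omega)).symm
    show (fun n => if n < N then x n else a' n) ∈ A ↔ (fun n => if n < N then x n else a n) ∈ A
    rw [this]
  have h2 : ∀ N, N < l → ff A a' N ≠ 0 → (1 / 2 : ℝ≥0∞) ^ l ≤ ff A a l := by
    intro N hN hne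
    have hne' : ({x : ℕ → Bool | (fun n => if n < N then x n else a' n) ∈ A}).Nonempty := by
      rw [Set.nonempty_iff_ne_empty]
      intro h0
      apply hne
      unfold ff
      rw [h0, measure_empty]
    obtain ⟨x₀, hx₀⟩ := hne'
    rw [← coin_cyl l (fun n => if n < N then x₀ n else a' n)]
    unfold ff
    refine measure_mono ?_
    intro x hx
    have hx' : ∀ m < l, x m = if m < N then x₀ m else a' m := hx
    have e : (fun n => if n < l then x n else a n) = fun n => if n < N then x₀ n else a' n := by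
      funext n
      by_cases hn : n < l
      · rw [if_pos hn]
        exact hx' n hn
      · rw [if_neg hn, if_neg (by omega), haa n (by omega)]
    show (fun n => if n < l then x n else a n) ∈ A
    rw [e]
    exact hx₀
  have hsplit : ∑' N : ℕ, (1 / 2 : ℝ≥0∞) ^ (N + 1) * ff A a' N ≤
      ∑' N : ℕ, (1 / 2 : ℝ≥0∞) ^ (N + 1) * ff A a N +
        ∑' N : ℕ, (1 / 2 : ℝ≥0∞) ^ (N + 1) * (if N < l then ff A a' N else 0) := by
    rw [← ENNReal.tsum_add]
    refine ENNReal.tsum_le_tsum fun N => ?_
    by_cases hN : N < l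
    · rw [if_pos hN]
      exact le_add_self
    · rw [if_neg hN, h1 N (by omega)]
      exact le_self_add
  refine hsplit.trans ?_
  rw [add_mul, one_mul]
  refine add_le_add le_rfl ?_
  by_cases hall : ∀ N, N < l → ff A a' N = 0
  · have : ∑' N : ℕ, (1 / 2 : ℝ≥0∞) ^ (N + 1) * (if N < l then ff A a' N else 0) = 0 := by
      rw [ENNReal.tsum_eq_zero]
      intro N
      split_ifs with h
      · rw [hall N h, mul_zero]
      · rw [mul_zero]
    rw [this]
    exact zero_le
  · push Not at hall
    obtain ⟨N₀, hN₀, hne⟩ := hall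
    have h3 := h2 N₀ hN₀ hne
    have h4 : (1 / 2 : ℝ≥0∞) ^ (l + 1) * (1 / 2) ^ l ≤
        ∑' N : ℕ, (1 / 2 : ℝ≥0∞) ^ (N + 1) * ff A a N :=
      (mul_le_mul_right h3 _).trans (ENNReal.le_tsum l)
    have h5 : ∑' N : ℕ, (1 / 2 : ℝ≥0∞) ^ (N + 1) * (if N < l then ff A a' N else 0) ≤ 1 := by
      calc ∑' N : ℕ, (1 / 2 : ℝ≥0∞) ^ (N + 1) * (if N < l then ff A a' N else 0)
          ≤ ∑' N : ℕ, (1 / 2 : ℝ≥0∞) ^ (N + 1) := by
            refine ENNReal.tsum_le_tsum fun N => ?_
            calc (1 / 2 : ℝ≥0∞) ^ (N + 1) * (if N < l then ff A a' N else 0)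
                ≤ (1 / 2 : ℝ≥0∞) ^ (N + 1) * 1 := by
                  refine mul_le_mul_right ?_ _
                  split_ifs
                  · exact prob_le_one
                  · exact zero_le
              _ = _ := mul_one _
        _ = 1 := by
            simp only [one_div]
            rw [ENNReal.tsum_geometric_add_one, ENNReal.one_sub_inv_two, inv_inv]
            exact ENNReal.inv_mul_cancel (by norm_num) (by norm_num)
    refine h5.trans ?_
    calc (1 : ℝ≥0∞) = 2 ^ (2 * l + 1) * ((1 / 2 : ℝ≥0∞) ^ (l + 1) * (1 / 2) ^ l) := by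
          rw [← pow_add, one_div, show l + 1 + l = 2 * l + 1 by ring, ← mul_pow,
            ENNReal.mul_inv_cancel (by norm_num) (by norm_num), one_pow]
      _ ≤ _ := mul_le_mul_right h4 _

end NU.PkLB1
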